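import Pool.Agent.Run7.h54.HP.Defs

set_option autoImplicit false

/-!
# MP_d1604f_al, piece COL: the colimit of a sequence of endomorphisms solving all tasks
-/

namespace Pool.Agent.Run7.h925.HP

open Pool.Agent.Run7.h54.HP

/-- The composites, by recursion on the last stage. -/
noncomputable def Fc {T : Type} [CommRing T] (e : ℕ → ℕ × (Fin 6 → T))
    (c : (Fin 6 → T) → (T →+* T)) : ℕ → ℕ → (T →+* T)
  | 0, _ => RingHom.id T
  | n + 1, k => if k ≤ n then
      (c (fun i => Fc e c n (e n).1 ((e n).2 i))).comp (Fc e c n k) else RingHom.id T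

variable {T : Type} [CommRing T] (e : ℕ → ℕ × (Fin 6 → T)) (c : (Fin 6 → T) → (T →+* T))

theorem Fc_self (k : ℕ) : Fc e c k k = RingHom.id T := by
  cases k with
  | zero => rw [Fc]
  | succ n => rw [Fc, if_neg (by omega)]

theorem Fc_succ {n k : ℕ} (h : k ≤ n) : Fc e c (n + 1) k =
    (c (fun i => Fc e c n (e n).1 ((e n).2 i))).comp (Fc e c n k) := by
  rw [Fc, if_pos h]

theorem Fc_mem (M : Set (T →+* T)) (h1 : RingHom.id T ∈ M)
    (h2 : ∀ f ∈ M, ∀ g ∈ M, f.comp g ∈ M) (hc : ∀ x, c x ∈ M) (n k : ℕ) :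
    Fc e c n k ∈ M := by
  induction n with
  | zero => rw [Fc]; exact h1
  | succ n ih =>
    rw [Fc]
    split_ifs
    · exact h2 _ (hc _) _ ih
    · exact h1

theorem Fc_comp {k l m : ℕ} (hkl : k ≤ l) (hlm : l ≤ m) (x : T) :
    Fc e c m l (Fc e c l k x) = Fc e c m k x := by
  induction m, hlm using Nat.le_induction with
  | base => rw [Fc_self]; rfl
  | succ m hm ih =>
    rw [Fc_succ e c hm, Fc_succ e c (hkl.trans hm), RingHom.comp_apply, RingHom.comp_apply, ih]

theorem t_COL : P_COL := by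
  intro T _ _ M hM1 hM2 Pr hPr
  classical
  choose c hcM hcP using hPr
  obtain ⟨g, hg⟩ := exists_surjective_nat (ℕ × (Fin 6 → T))
  let e : ℕ → ℕ × (Fin 6 → T) := fun n => g n.unpair.1
  let f : ∀ i j : ℕ, i ≤ j → (T →+* T) := fun i j _ => Fc e c j i
  have : DirectedSystem (fun _ : ℕ => T) (fun i j h => f i j h) :=
    ⟨fun i x => by
      change Fc e c i i x = x
      rw [Fc_self]; rfl,
     fun i j k hij hjk x => Fc_comp e c hij hjk x⟩
  refine ⟨Ring.DirectLimit (fun _ : ℕ => T) (fun i j h => f i j h), inferInstance,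
    fun k => Ring.DirectLimit.of (fun _ : ℕ => T) (fun i j h => f i j h) k,
    fun k l => Fc e c l k, ?_, ?_, ?_, ?_⟩
  · intro k l hkl
    refine ⟨Fc_mem e c M hM1 hM2 hcM l k, fun x => ?_⟩
    exact Ring.DirectLimit.of_f (G := fun _ : ℕ => T) (f := fun i j h => f i j h) hkl x
  · intro r
    exact Ring.DirectLimit.exists_of r
  · intro k x hx
    obtain ⟨j, hij, h⟩ := Ring.DirectLimit.of.zero_exact (G := fun _ : ℕ => T) (f' := f) hx
    exact ⟨j, hij, h⟩
  · intro k x
    obtain ⟨a, ha⟩ := hg (k, x)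
    have hkn : k ≤ Nat.pair a k := Nat.right_le_pair a k
    refine ⟨Nat.pair a k + 1, by omega, ?_⟩
    have he : e (Nat.pair a k) = (k, x) := by
      change g (Nat.pair a k).unpair.1 = _
      rw [Nat.unpair_pair]; exact ha
    change Pr (fun i => Fc e c (Nat.pair a k + 1) k (x i))
    rw [Fc_succ e c hkn, he]
    exact hcP (fun i => Fc e c (Nat.pair a k) k (x i))

end Pool.Agent.Run7.h925.HP
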