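import Pool.Agent.Run7.h54.HP.Defs

set_option autoImplicit false

/-!
# MP_d1604f_al, the fields for every prime (after the proof of helper937 for the prime two)
-/

namespace Pool.Agent.Run7.h925.HP

theorem cpoly (k : Type) [Field k] [Countable k] : Countable (Polynomial k) := by
  have : Function.Injective (fun f : Polynomial k => f.toFinsupp.coeff) := by
    intro f g h
    have h' : f.toFinsupp.coeff = g.toFinsupp.coeff := h
    exact Polynomial.toFinsupp_injective (by simpa using h')
  exact this.countable

theorem fields (p : ℕ) [hp : Fact p.Prime] : ∃ (H : Type) (_ : Field H) (_ : CharP H p)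
    (_ : IsAlgClosed H) (_ : Countable H) (K : Subfield H),
    (∀ x : H, ∃ k : ℕ, x ^ p ^ k ∈ K) ∧ ∃ l : H, l ∉ K := by
  let K := RatFunc (ZMod p)
  let H := AlgebraicClosure K
  have i1 : CharP K p := inferInstance
  have i2 : CharP H p := charP_of_injective_algebraMap (algebraMap K H).injective p
  have i3 : Countable (Polynomial (ZMod p)) := cpoly (ZMod p)
  have i4 : Countable K := by
    have := IsLocalization.mk'_surjective (nonZeroDivisors (Polynomial (ZMod p))) (S := K)
    exact Function.Surjective.countable
      (f := fun x : Polynomial (ZMod p) × nonZeroDivisors (Polynomial (ZMod p)) =>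
        IsLocalization.mk' K x.1 x.2) (fun z => by
          obtain ⟨x, h⟩ := this z
          exact ⟨x, h⟩)
  have i5 : Countable H := by
    rw [← Cardinal.mk_le_aleph0_iff]
    refine (Algebra.IsAlgebraic.cardinalMk_le_max K H).trans ?_
    exact max_le (Cardinal.mk_le_aleph0_iff.mpr inferInstance) le_rfl
  refine ⟨H, inferInstance, i2, inferInstance, i5, (separableClosure K H).toSubfield, ?_, ?_⟩
  · intro x
    obtain ⟨k, y, hy⟩ := IsPurelyInseparable.pow_mem (separableClosure K H) p x
    exact ⟨k, hy ▸ y.2⟩
  · obtain ⟨l, hl⟩ := IsAlgClosed.exists_pow_nat_eq (algebraMap K H RatFunc.X) (n := p)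
      hp.out.pos
    refine ⟨l, fun hC => ?_⟩
    have h1 : l ∈ perfectClosure K H := by
      rw [mem_perfectClosure_iff_pow_mem p]
      exact ⟨1, by rw [pow_one, hl]; exact ⟨_, rfl⟩⟩
    have h2 : l ∈ separableClosure K H ⊓ perfectClosure K H := ⟨hC, h1⟩
    rw [separableClosure_inf_perfectClosure, IntermediateField.mem_bot] at h2
    obtain ⟨r, hr⟩ := h2
    have h3 : r ^ p = RatFunc.X := by
      apply (algebraMap K H).injective
      rw [map_pow, hr, hl]
    have hr0 : r ≠ 0 := by
      rintro rfl
      apply RatFunc.X_ne_zero (K := ZMod p)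
      rw [← h3, zero_pow hp.out.ne_zero]
    have h5 : ∀ n : ℕ, RatFunc.intDegree (r ^ n) = n * RatFunc.intDegree r := by
      intro n
      induction n with
      | zero => simp
      | succ n ih =>
        rw [pow_succ, RatFunc.intDegree_mul (pow_ne_zero n hr0) hr0, ih]
        push_cast
        ring
    have h4 := congrArg RatFunc.intDegree h3
    rw [h5, RatFunc.intDegree_X] at h4
    have h6 : (p : ℤ) ∣ 1 := ⟨_, h4.symm⟩
    have h7 : p ∣ 1 := by exact_mod_cast h6
    exact hp.out.one_lt.ne' (Nat.dvd_one.1 h7)

end Pool.Agent.Run7.h925.HP
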