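import Pool.Agent.Run7.h54.HP.Defs

set_option autoImplicit false

/-!
# MP_d1604f_al, piece PRF: the perfection is Hermite and satisfies the triple condition
-/

namespace Pool.Agent.Run7.h925.HP

open Pool.Agent.Run7.h54.HP

section
variable (p : ℕ) [hp : Fact p.Prime] (R : Type) [CommRing R] [CharP R p]

theorem rep (x : PerfectClosure R p) : ∃ (n : ℕ) (r : R), x ^ p ^ n = PerfectClosure.of R p r := by
  obtain ⟨⟨n, r⟩, rfl⟩ := PerfectClosure.mk_surjective R p x
  refine ⟨n, r, ?_⟩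
  have h := PerfectClosure.iterate_frobenius_mk R p n r
  rw [← h, ← iterate_frobenius]

theorem rep_mono {x : PerfectClosure R p} {n : ℕ} {r : R}
    (h : x ^ p ^ n = PerfectClosure.of R p r) (m : ℕ) :
    x ^ p ^ (n + m) = PerfectClosure.of R p (r ^ p ^ m) := by
  rw [pow_add, pow_mul, h, map_pow]

theorem rep' (x : PerfectClosure R p) : ∃ n₀ : ℕ, ∀ n, n₀ ≤ n → ∃ r : R,
    x ^ p ^ n = PerfectClosure.of R p r := by
  obtain ⟨n, r, h⟩ := rep p R x
  refine ⟨n, fun m hm => ?_⟩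
  obtain ⟨k, rfl⟩ := Nat.exists_eq_add_of_le hm
  exact ⟨r ^ p ^ k, rep_mono p R h k⟩

theorem of_one_eq {r : R} (h : PerfectClosure.of R p r = 1) : ∃ m : ℕ, r ^ p ^ m = 1 := by
  have h' : PerfectClosure.mk R p (0, r) = PerfectClosure.mk R p (0, 1) := by
    rw [← PerfectClosure.of_apply, h, PerfectClosure.one_def]
  obtain ⟨z, hz⟩ := (PerfectClosure.mk_eq_iff R p (0, r) (0, 1)).1 h'
  refine ⟨z, ?_⟩
  simp only [Nat.zero_add, iterate_frobenius, one_pow] at hz
  simpa using hz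

end

theorem t_PRF : P_PRF := by
  intro p _ R _ _ hH hT
  constructor
  · intro a b
    obtain ⟨n1, h1⟩ := rep' p R a
    obtain ⟨n2, h2⟩ := rep' p R b
    let n := max n1 n2
    obtain ⟨a0, ha⟩ := h1 n (le_max_left _ _)
    obtain ⟨b0, hb⟩ := h2 n (le_max_right _ _)
    obtain ⟨d, u, v, s, r, h3, h4, h5⟩ := hH a0 b0
    let φ := iterateFrobeniusEquiv (PerfectClosure R p) p n
    have hφ : ∀ x, φ x = x ^ p ^ n := fun x => iterateFrobeniusEquiv_def ..
    let o := PerfectClosure.of R p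
    refine ⟨φ.symm (o d), φ.symm (o u), φ.symm (o v), φ.symm (o s), φ.symm (o r), ?_, ?_, ?_⟩
    · rw [← map_mul, ← map_mul, RingEquiv.eq_symm_apply, hφ, ha, h3]
    · rw [← map_mul, ← map_mul, RingEquiv.eq_symm_apply, hφ, hb, h4]
    · rw [← map_mul, ← map_mul, ← map_mul, ← map_mul, ← map_add, ← map_add, h5, map_one, map_one]
  · intro a b c a' b' c' h
    obtain ⟨n1, h1⟩ := rep' p R a
    obtain ⟨n2, h2⟩ := rep' p R b
    obtain ⟨n3, h3⟩ := rep' p R c
    obtain ⟨n4, h4⟩ := rep' p R a'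
    obtain ⟨n5, h5⟩ := rep' p R b'
    obtain ⟨n6, h6⟩ := rep' p R c'
    let n := n1 + n2 + n3 + n4 + n5 + n6
    obtain ⟨a0, ha⟩ := h1 n (by omega)
    obtain ⟨b0, hb⟩ := h2 n (by omega)
    obtain ⟨c0, hc⟩ := h3 n (by omega)
    obtain ⟨a0', ha'⟩ := h4 n (by omega)
    obtain ⟨b0', hb'⟩ := h5 n (by omega)
    obtain ⟨c0', hc'⟩ := h6 n (by omega)
    let o := PerfectClosure.of R p
    have hsum : o (a0 * a0' + b0 * b0' + c0 * c0') = 1 := by
      change PerfectClosure.of R p _ = 1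
      rw [map_add, map_add, map_mul, map_mul, map_mul, ← ha, ← hb, ← hc, ← ha', ← hb', ← hc',
        ← mul_pow, ← mul_pow, ← mul_pow, ← add_pow_char_pow, ← add_pow_char_pow, h, one_pow]
    obtain ⟨m, hm⟩ := of_one_eq p R hsum
    rw [add_pow_char_pow, add_pow_char_pow, mul_pow, mul_pow, mul_pow] at hm
    obtain ⟨k, x, y, z, w, hk⟩ := hT _ _ _ _ _ _ hm
    let φ := iterateFrobeniusEquiv (PerfectClosure R p) p (n + m + k)
    have hφ : ∀ x, φ x = x ^ p ^ (n + m + k) := fun x => iterateFrobeniusEquiv_def ..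
    refine ⟨φ.symm (o x), φ.symm (o y), φ.symm (o z), φ.symm (o w), ?_⟩
    apply φ.injective
    rw [map_add, map_mul, map_mul, map_mul, map_add, map_mul, map_mul, map_one,
      RingEquiv.apply_symm_apply, RingEquiv.apply_symm_apply, RingEquiv.apply_symm_apply,
      RingEquiv.apply_symm_apply, hφ, hφ, hφ, rep_mono p R (rep_mono p R ha m) k,
      rep_mono p R (rep_mono p R hb m) k, rep_mono p R (rep_mono p R hc m) k]
    change o z * (o x * o _) + o w * (o x * o _ + o y * o _) = 1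
    rw [← map_mul, ← map_mul, ← map_mul, ← map_mul, ← map_add, ← map_mul, ← map_add, hk, map_one]

end Pool.Agent.Run7.h925.HP
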