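import Pool.Agent.Run7.h925.HP.PATH

set_option autoImplicit false

/-!
# MP_d1604f_al, the two tasks
-/

namespace Pool.Agent.Run7.h925.HP

open Pool.Agent.Run7.h54.HP Polynomial

section
variable {H : Type} [Field H]

theorem sc1_mul (h h' : H) : sc1 h * sc1 h' = sc1 (h * h') := by
  funext k
  fin_cases k <;> simp [sc1, mul_comm]

theorem Y1_scale {a b h : H} (hh : h ≠ 0) {x : Fin 5 → H} (hx : Y1 a b x) :
    Y1 a b (sc1 h * x) := by
  obtain ⟨h1, h2, h3⟩ := hx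
  have e : h * h⁻¹ = 1 := mul_inv_cancel₀ hh
  refine ⟨?_, ?_, ?_⟩
  · simp [sc1]
    linear_combination h1 - (x 0 * x 1) * e
  · simp [sc1]
    linear_combination h2 - (x 0 * x 2) * e
  · simp [sc1]
    linear_combination h3 + (x 3 * x 1 + x 4 * x 2) * e

theorem Y2_scale {a b c h : H} (hh : h ≠ 0) {x : Fin 4 → H} (hx : Y2 a b c x) :
    Y2 a b c (sc2 h * x) := by
  unfold Y2 at *
  have e : h * h⁻¹ = 1 := mul_inv_cancel₀ hh
  simp [sc2]
  linear_combination hx + (x 2 * (x 0 * a) + x 3 * (x 0 * b + x 1 * c)) * e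

theorem csol1 (K : Subfield H) {a b : H} (ha : a ∈ K) (hb : b ∈ K) :
    ∃ z : Fin 5 → H, Y1 a b z ∧ ∀ k, z k ∈ K := by
  by_cases h : a = 0
  · by_cases h' : b = 0
    · refine ⟨![0, 1, 0, 1, 0], ⟨by simp [h], by simp [h'], by simp⟩, fun k => ?_⟩
      fin_cases k <;> simp [K.zero_mem, K.one_mem]
    · refine ⟨![b, 0, 1, 0, 1], ⟨by simp [h], by simp, by simp⟩, fun k => ?_⟩
      fin_cases k <;> simp [K.zero_mem, K.one_mem, hb]
  · refine ⟨![a, 1, b / a, 1, 0], ⟨by simp, by simp; field_simp, by simp⟩, fun k => ?_⟩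
    fin_cases k <;> simp [K.zero_mem, K.one_mem, ha, K.div_mem hb ha]

theorem csol1' (K : Subfield H) {a b : H} (ha : a ∈ K) (hb : b ∈ K) (hab : ¬ (a = 0 ∧ b = 0)) :
    ∃ z : Fin 5 → H, (Y1 a b z ∧ z 0 = 1) ∧ ∀ k, z k ∈ K := by
  by_cases h : a = 0
  · have h' : b ≠ 0 := fun hb => hab ⟨h, hb⟩
    refine ⟨![1, a, b, 0, b⁻¹], ⟨⟨by simp, by simp, by simp [h']⟩, by simp⟩, fun k => ?_⟩
    fin_cases k <;> simp [K.zero_mem, K.one_mem, ha, hb, K.inv_mem hb]
  · refine ⟨![1, a, b, a⁻¹, 0], ⟨⟨by simp, by simp, by simp [h]⟩, by simp⟩, fun k => ?_⟩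
    fin_cases k <;> simp [K.zero_mem, K.one_mem, ha, hb, K.inv_mem ha]

theorem chain_ext [Infinite H] {f g : chain H} (h : ∀ j t, (f.1 j).eval t = (g.1 j).eval t) :
    f = g := by
  apply Subtype.ext
  funext j
  exact Polynomial.funext (h j)

theorem ev_const {f : chain H} {c : H} {N : ℕ} (h : ∀ i, N ≤ i → f.1 i = C c) {i : ℕ}
    (hi : N ≤ i) (t : H) : ev i t f = c := by
  change (f.1 i).eval t = c
  rw [h i hi, eval_C]

end

theorem t_TASK2 : S_TASK2 := by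
  intro H _ _ a b c a' b' c' habc
  have hinf : Infinite H := IsAlgClosed.instInfinite
  let Y : (chain H → H) → (Fin 4 → H) → Prop := fun φ x => Y2 (φ a) (φ b) (φ c) x
  let Z : (Fin 4 → H) → Prop := fun _ => True
  let Sc : Set (Fin 4 → H) := {κ | ∃ h : H, h ≠ 0 ∧ κ = sc2 h}
  have hY : ∀ κ ∈ Sc, ∀ φ x, Y φ x → Y φ (κ * x) := by
    rintro κ ⟨h, hh, rfl⟩ φ x hx
    exact Y2_scale hh hx
  have hL : ∀ i, ∃ W : Fin 4 → H[X], ∀ t, Y (ev i t) (fun k => (W k).eval t) := by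
    intro i
    have h1 : a.1 i * a'.1 i + b.1 i * b'.1 i + c.1 i * c'.1 i = 1 :=
      congrFun (congrArg Subtype.val habc) i
    obtain ⟨W, hW⟩ := line2 _ _ _ _ _ _ h1
    refine ⟨W, fun t => ?_⟩
    have h2 := congrArg (eval t) hW
    simpa [Y, Y2, ev] using h2
  have hJ : ∀ i p x y, Y (ev i p) x → Y (ev i p) y → ∃ κ ∈ Sc, Conn (Y (ev i p)) x (κ * y) := by
    intro i p x y hx hy
    obtain ⟨h, hh, hc⟩ := conn2 x y hx hy
    exact ⟨sc2 h, ⟨h, hh, rfl⟩, hc⟩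
  obtain ⟨Na, ca, ha⟩ := a.2.2
  obtain ⟨Nb, cb, hb⟩ := b.2.2
  obtain ⟨Nc, cc, hc⟩ := c.2.2
  let N := Na + Nb + Nc
  have hbase : ∀ x, Y (ev N 0) x → Nonempty (Tail Y Z (ev N 0) x) := by
    intro x hx
    apply base N x trivial
    intro i t hi
    change Y2 _ _ _ x at hx
    change Y2 _ _ _ x
    rw [ev_const ha (by omega : Na ≤ N), ev_const hb (by omega : Nb ≤ N),
      ev_const hc (by omega : Nc ≤ N)] at hx
    rwa [ev_const ha (by omega : Na ≤ i), ev_const hb (by omega : Nb ≤ i),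
      ev_const hc (by omega : Nc ≤ i)]
  have hall := PA_down Sc hY hL hJ N hbase 0 (Nat.zero_le _)
  obtain ⟨W, hW⟩ := hL 0
  obtain ⟨ρ, hρ, w, z, -, -, -, hid⟩ := extract (hall _ (hW 0))
  refine ⟨ρ, hρ, w 0, w 1, w 2, w 3, ?_⟩
  apply chain_ext
  intro j t
  have := hid j t
  simpa [Y, Y2] using this

theorem t_TASK1 : S_TASK1 := by
  intro H _ _ K a b hKa hKb
  have hinf : Infinite H := IsAlgClosed.instInfinite
  obtain ⟨ha0, ca, hca, Na, ha⟩ := hKa
  obtain ⟨hb0, cb, hcb, Nb, hb⟩ := hKb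
  let Z : (Fin 5 → H) → Prop := fun z => ∀ k, z k ∈ K
  -- the end of the argument
  have fin : ∀ (Y : (chain H → H) → (Fin 5 → H) → Prop)
      (_ : ∀ φ x, Y φ x → Y1 (φ a) (φ b) x) (x : Fin 5 → H) (_ : ∀ k, x k ∈ K)
      (_ : Nonempty (Tail Y Z (ev 0 0) x)),
      ∃ ρ : chain H →+* chain H, Refines ρ ∧ ∃ d u v s r : chain H,
        (InC K d ∧ InC K u ∧ InC K v ∧ InC K s ∧ InC K r) ∧
        ρ a = d * u ∧ ρ b = d * v ∧ s * u + r * v = 1 := by
    intro Y hY x hx hT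
    obtain ⟨ρ, hρ, w, z, hw0, hz, hw1, hid⟩ := extract hT
    have hC : ∀ k, InC K (w k) := fun k => ⟨by rw [hw0]; exact hx k, z k, hz k, hw1 k⟩
    refine ⟨ρ, hρ, w 0, w 1, w 2, w 3, w 4, ⟨hC 0, hC 1, hC 2, hC 3, hC 4⟩, ?_, ?_, ?_⟩
    · apply chain_ext
      intro j t
      have := (hY _ _ (hid j t)).1
      simpa using this
    · apply chain_ext
      intro j t
      have := (hY _ _ (hid j t)).2.1
      simpa using this
    · apply chain_ext
      intro j t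
      have := (hY _ _ (hid j t)).2.2
      simpa using this
  by_cases hz : ∃ (i : ℕ) (t : H), ev i t a = 0 ∧ ev i t b = 0
  · obtain ⟨i0, t0, hz1, hz2⟩ := hz
    let Y : (chain H → H) → (Fin 5 → H) → Prop := fun φ x => Y1 (φ a) (φ b) x
    let Sc : Set (Fin 5 → H) := {κ | ∃ h : H, h ≠ 0 ∧ κ = sc1 h}
    have hmul : ∀ κ ∈ Sc, ∀ κ' ∈ Sc, κ * κ' ∈ Sc := by
      rintro κ ⟨h, hh, rfl⟩ κ' ⟨h', hh', rfl⟩
      exact ⟨h * h', mul_ne_zero hh hh', sc1_mul h h'⟩
    have hY : ∀ κ ∈ Sc, ∀ φ x, Y φ x → Y φ (κ * x) := by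
      rintro κ ⟨h, hh, rfl⟩ φ x hx
      exact Y1_scale hh hx
    have hL : ∀ i, ∃ W : Fin 5 → H[X], ∀ t, Y (ev i t) (fun k => (W k).eval t) := by
      intro i
      obtain ⟨W, h1, h2, h3⟩ := line1 (a.1 i) (b.1 i)
      refine ⟨W, fun t => ⟨?_, ?_, ?_⟩⟩
      · simpa [ev] using congrArg (eval t) h1
      · simpa [ev] using congrArg (eval t) h2
      · simpa [ev] using congrArg (eval t) h3
    have hJ : ∀ i p x y, Y (ev i p) x → Y (ev i p) y →
        ∃ κ ∈ Sc, Conn (Y (ev i p)) x (κ * y) := by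
      intro i p x y hx hy
      by_cases hab : ev i p a = 0 ∧ ev i p b = 0
      · refine ⟨sc1 1, ⟨1, one_ne_zero, rfl⟩, ?_⟩
        have e : sc1 (1 : H) * y = y := by
          funext k
          fin_cases k <;> simp [sc1]
        rw [e]
        change Y1 _ _ _ at hx hy
        change Conn (Y1 (ev i p a) (ev i p b)) x y
        rw [hab.1, hab.2] at hx hy ⊢
        exact conn1_zero x y hx hy
      · obtain ⟨h, hh, hc⟩ := conn1 hab x y hx hy
        exact ⟨sc1 h, ⟨h, hh, rfl⟩, hc⟩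
    let N := Na + Nb + i0 + 1
    have hbase : ∀ x, Y (ev N 0) x → ∃ κ ∈ Sc, Nonempty (Tail Y Z (ev N 0) (κ * x)) := by
      intro x hx
      obtain ⟨z, hz, hzK⟩ := csol1 K hca hcb
      have hzN : ∀ i t, N ≤ i → Y (ev i t) z := by
        intro i t hi
        change Y1 _ _ z
        rwa [ev_const ha (by omega : Na ≤ i), ev_const hb (by omega : Nb ≤ i)]
      obtain ⟨κ, hκ, hc⟩ := hJ N 0 z x (hzN N 0 le_rfl) hx
      exact ⟨κ, hκ, fibre_conn N 0 _ z (conn_symm hc) (base N z hzK hzN)⟩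
    have h1 := PG_down Sc hmul hY hL hJ N hbase (i0 + 1) (by omega)
    have h2 : ∀ x, Y (ev i0 t0) x → ∃ κ ∈ Sc, Nonempty (Tail Y Z (ev i0 t0) (κ * x)) := by
      apply PG Sc hmul hY i0 t0 1 (hL i0) (hJ i0 t0)
      rw [ev_junction]
      exact h1
    have h3 : ∀ x, Y (ev i0 t0) x → Nonempty (Tail Y Z (ev i0 t0) x) := by
      intro x hx
      obtain ⟨κ, hκ, hT⟩ := h2 x hx
      apply fibre_conn i0 t0 x _ _ hT
      have hx' := hY κ hκ _ _ hx
      change Y1 _ _ _ at hx hx'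
      change Conn (Y1 (ev i0 t0 a) (ev i0 t0 b)) x _
      rw [hz1, hz2] at hx hx' ⊢
      exact conn1_zero x _ hx hx'
    have h4 : ∀ x, Y (ev i0 0) x → Nonempty (Tail Y Z (ev i0 0) x) :=
      PA Sc hY i0 0 t0 (hL i0) (hJ i0 0) h3
    have h5 := PA_down Sc hY hL hJ i0 h4 0 (Nat.zero_le _)
    obtain ⟨x, hx, hxK⟩ := csol1 K ha0 hb0
    exact fin Y (fun φ x h => h) x hxK (h5 x hx)
  · have hnz : ∀ i t, ¬ (ev i t a = 0 ∧ ev i t b = 0) := fun i t h => hz ⟨i, t, h⟩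
    let Y : (chain H → H) → (Fin 5 → H) → Prop := fun φ x => Y1 (φ a) (φ b) x ∧ x 0 = 1
    let Sc : Set (Fin 5 → H) := {1}
    have hY : ∀ κ ∈ Sc, ∀ φ x, Y φ x → Y φ (κ * x) := by
      rintro κ rfl φ x hx
      rwa [one_mul]
    have hL : ∀ i, ∃ W : Fin 5 → H[X], ∀ t, Y (ev i t) (fun k => (W k).eval t) := by
      intro i
      have hco : IsCoprime (a.1 i) (b.1 i) := by
        rw [Polynomial.isCoprime_iff_aeval_ne_zero_of_isAlgClosed H H]
        intro r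
        by_contra hcon
        push Not at hcon
        exact hnz i r hcon
      obtain ⟨s, r, hsr⟩ := hco
      refine ⟨![1, a.1 i, b.1 i, s, r], fun t => ⟨⟨?_, ?_, ?_⟩, ?_⟩⟩
      · simp [ev]
      · simp [ev]
      · simpa using congrArg (eval t) hsr
      · simp
    have hS : ∀ i p x y, Y (ev i p) x → Y (ev i p) y → Str (Y (ev i p)) x y := by
      rintro i p x y ⟨⟨hx1, hx2, hx3⟩, hx0⟩ ⟨⟨hy1, hy2, hy3⟩, hy0⟩ t
      rw [hx0, one_mul] at hx1 hx2
      rw [hy0, one_mul] at hy1 hy2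
      refine ⟨⟨?_, ?_, ?_⟩, ?_⟩
      · simp only []
        rw [hx0, hy0, ← hx1, ← hy1]; ring
      · simp only []
        rw [hx0, hy0, ← hx2, ← hy2]; ring
      · simp only []
        rw [← hx1, ← hx2, ← hy1, ← hy2]
        rw [← hx1, ← hx2] at hx3
        rw [← hy1, ← hy2] at hy3
        linear_combination (1 - t) * hx3 + t * hy3
      · simp only []
        rw [hx0, hy0]; ring
    have hJ : ∀ i p x y, Y (ev i p) x → Y (ev i p) y →
        ∃ κ ∈ Sc, Conn (Y (ev i p)) x (κ * y) := by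
      intro i p x y hx hy
      refine ⟨1, rfl, ?_⟩
      rw [one_mul]
      exact Relation.ReflTransGen.single (hS i p x y hx hy)
    let N := Na + Nb
    have hbase : ∀ x, Y (ev N 0) x → Nonempty (Tail Y Z (ev N 0) x) := by
      intro x hx
      have hN := hnz N 0
      rw [ev_const ha (by omega : Na ≤ N), ev_const hb (by omega : Nb ≤ N)] at hN
      obtain ⟨z, hz, hzK⟩ := csol1' K hca hcb hN
      have hzN : ∀ i t, N ≤ i → Y (ev i t) z := by
        intro i t hi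
        change Y1 _ _ z ∧ _
        rwa [ev_const ha (by omega : Na ≤ i), ev_const hb (by omega : Nb ≤ i)]
      exact fibre_step N 0 x z (hS N 0 x z hx (hzN N 0 le_rfl)) (base N z hzK hzN)
    have h5 := PA_down Sc hY hL hJ N hbase 0 (Nat.zero_le _)
    obtain ⟨x, hx, hxK⟩ := csol1' K ha0 hb0 (hnz 0 0)
    exact fin Y (fun φ x h => h.1) x hxK (h5 x hx)

end Pool.Agent.Run7.h925.HP
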