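import Pool.Agent.Run7.h925.HP.TaskDefs

set_option autoImplicit false

/-!
# MP_d1604f_al, assembly: the ring `T`, the colimit `R`, its Hermite property, its perfection
-/

namespace Pool.Agent.Run7.h925.HP

open Pool.Agent.Run7.h54.HP Polynomial

section
variable {H : Type} [Field H]

/-- Chains with both ends in the subfield. -/
def TT (K : Subfield H) : Subring (chain H) where
  carrier := {f | InC K f}
  mul_mem' := by
    rintro f g ⟨hf, c, hc, N, hN⟩ ⟨hg, e, he, M, hM⟩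
    refine ⟨?_, c * e, K.mul_mem hc he, max N M, fun i hi => ?_⟩
    · change (f.1 0 * g.1 0).eval 0 ∈ K
      rw [eval_mul]; exact K.mul_mem hf hg
    · change f.1 i * g.1 i = _
      rw [hN i (le_trans (le_max_left _ _) hi), hM i (le_trans (le_max_right _ _) hi), C_mul]
  one_mem' := by
    refine ⟨?_, 1, K.one_mem, 0, fun i _ => ?_⟩
    · change (1 : H[X]).eval 0 ∈ K
      rw [eval_one]; exact K.one_mem
    · change (1 : H[X]) = _
      rw [C_1]
  add_mem' := by
    rintro f g ⟨hf, c, hc, N, hN⟩ ⟨hg, e, he, M, hM⟩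
    refine ⟨?_, c + e, K.add_mem hc he, max N M, fun i hi => ?_⟩
    · change (f.1 0 + g.1 0).eval 0 ∈ K
      rw [eval_add]; exact K.add_mem hf hg
    · change f.1 i + g.1 i = _
      rw [hN i (le_trans (le_max_left _ _) hi), hM i (le_trans (le_max_right _ _) hi), C_add]
  zero_mem' := by
    refine ⟨?_, 0, K.zero_mem, 0, fun i _ => ?_⟩
    · change (0 : H[X]).eval 0 ∈ K
      rw [eval_zero]; exact K.zero_mem
    · change (0 : H[X]) = _
      rw [C_0]
  neg_mem' := by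
    rintro f ⟨hf, c, hc, N, hN⟩
    refine ⟨?_, -c, K.neg_mem hc, N, fun i hi => ?_⟩
    · change (-(f.1 0)).eval 0 ∈ K
      rw [eval_neg]; exact K.neg_mem hf
    · change -(f.1 i) = _
      rw [hN i hi, C_neg]

theorem mem_TT {K : Subfield H} {f : chain H} : f ∈ TT K ↔ InC K f := Iff.rfl

/-- Endomorphisms of `TT K` induced by refinements. -/
def MM (K : Subfield H) : Set (TT K →+* TT K) :=
  {g | ∃ ρ : chain H →+* chain H, Refines ρ ∧ ∀ x : TT K, (g x : chain H) = ρ (x : chain H)}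

theorem refines_id : Refines (RingHom.id (chain H)) := ⟨fun _ => rfl, fun _ _ h => h⟩

theorem refines_comp {ρ σ : chain H →+* chain H} (hρ : Refines ρ) (hσ : Refines σ) :
    Refines (ρ.comp σ) :=
  ⟨fun f => (hρ.1 (σ f)).trans (hσ.1 f), fun f c h => hρ.2 _ _ (hσ.2 _ _ h)⟩

theorem refines_inC {K : Subfield H} {ρ : chain H →+* chain H} (hρ : Refines ρ) {f : chain H}
    (hf : InC K f) : InC K (ρ f) := by
  obtain ⟨h0, c, hc, h1⟩ := hf
  exact ⟨by rw [hρ.1]; exact h0, c, hc, hρ.2 _ _ h1⟩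

/-- The endomorphism of `TT K` induced by a refinement. -/
noncomputable def ind (K : Subfield H) (ρ : chain H →+* chain H) (hρ : Refines ρ) : TT K →+* TT K :=
  (ρ.comp (TT K).subtype).codRestrict (TT K) (fun x => refines_inC hρ x.2)

theorem ind_apply (K : Subfield H) (ρ : chain H →+* chain H) (hρ : Refines ρ) (x : TT K) :
    ((ind K ρ hρ x : TT K) : chain H) = ρ x := rfl

theorem ind_mem (K : Subfield H) (ρ : chain H →+* chain H) (hρ : Refines ρ) :
    ind K ρ hρ ∈ MM K := ⟨ρ, hρ, fun _ => rfl⟩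

theorem MM_id (K : Subfield H) : RingHom.id (TT K) ∈ MM K := ⟨_, refines_id, fun _ => rfl⟩

theorem MM_comp (K : Subfield H) : ∀ f ∈ MM K, ∀ g ∈ MM K, f.comp g ∈ MM K := by
  rintro f ⟨ρ, hρ, h1⟩ g ⟨σ, hσ, h2⟩
  refine ⟨ρ.comp σ, refines_comp hρ hσ, fun x => ?_⟩
  rw [RingHom.comp_apply, h1, h2]; rfl

end

/-- Task 1 for two elements. -/
def Pr1 {T : Type} [CommRing T] (a b : T) : Prop :=
  ∃ d u v s r : T, a = d * u ∧ b = d * v ∧ s * u + r * v = 1

/-- Task 2 for six elements. -/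
def Pr2 (p : ℕ) {T : Type} [CommRing T] (a b c a' b' c' : T) : Prop :=
  a * a' + b * b' + c * c' = 1 → ∃ (k : ℕ) (x y z w : T),
    z * (x * a ^ p ^ k) + w * (x * b ^ p ^ k + y * c ^ p ^ k) = 1

/-- Both tasks. -/
def Prr (p : ℕ) {T : Type} [CommRing T] (x : Fin 6 → T) : Prop :=
  Pr1 (x 0) (x 1) ∧ Pr2 p (x 0) (x 1) (x 2) (x 3) (x 4) (x 5)

theorem Pr1.map {T R : Type} [CommRing T] [CommRing R] (f : T →+* R) {a b : T} (h : Pr1 a b) :
    Pr1 (f a) (f b) := by
  obtain ⟨d, u, v, s, r, h1, h2, h3⟩ := h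
  refine ⟨f d, f u, f v, f s, f r, ?_, ?_, ?_⟩
  · rw [h1, map_mul]
  · rw [h2, map_mul]
  · rw [← map_mul, ← map_mul, ← map_add, h3, map_one]

section
variable {H : Type} [Field H]

theorem pow_inC (p : ℕ) [hp : Fact p.Prime] [CharP H p] (K : Subfield H)
    (hK : ∀ x : H, ∃ k : ℕ, x ^ p ^ k ∈ K) (f : chain H) :
    ∃ k₀ : ℕ, ∀ k, k₀ ≤ k → InC K (f ^ p ^ k) := by
  obtain ⟨N, c, hc⟩ := f.2.2
  obtain ⟨k1, h1⟩ := hK ((f.1 0).eval 0)
  obtain ⟨k2, h2⟩ := hK c
  refine ⟨max k1 k2, fun k hk => ⟨?_, c ^ p ^ k, ?_, N, fun i hi => ?_⟩⟩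
  · change ((f.1 0) ^ p ^ k).eval 0 ∈ K
    rw [eval_pow]
    obtain ⟨m, rfl⟩ := Nat.exists_eq_add_of_le (le_trans (le_max_left _ _) hk)
    rw [pow_add, pow_mul]
    exact K.pow_mem h1 _
  · obtain ⟨m, rfl⟩ := Nat.exists_eq_add_of_le (le_trans (le_max_right _ _) hk)
    rw [pow_add, pow_mul]
    exact K.pow_mem h2 _
  · change (f.1 i) ^ p ^ k = _
    rw [hc i hi, C_pow]

end

/-- All tasks can be solved by a refinement. -/
theorem solve (h1 : S_TASK1) (h2 : S_TASK2) (H : Type) [Field H] [IsAlgClosed H] (p : ℕ)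
    [hp : Fact p.Prime] [CharP H p] (K : Subfield H) (hK : ∀ x : H, ∃ k : ℕ, x ^ p ^ k ∈ K)
    (x : Fin 6 → TT K) : ∃ f ∈ MM K, Prr p (fun i => f (x i)) := by
  obtain ⟨ρ, hρ, d, u, v, s, r, ⟨hd, hu, hv, hs, hr⟩, e1, e2, e3⟩ :=
    h1 H K (x 0 : chain H) (x 1 : chain H) (x 0).2 (x 1).2
  have hP1 : Pr1 (ind K ρ hρ (x 0)) (ind K ρ hρ (x 1)) := by
    refine ⟨⟨d, hd⟩, ⟨u, hu⟩, ⟨v, hv⟩, ⟨s, hs⟩, ⟨r, hr⟩, ?_, ?_, ?_⟩
    · exact Subtype.ext e1
    · exact Subtype.ext e2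
    · exact Subtype.ext e3
  set y : Fin 6 → TT K := fun i => ind K ρ hρ (x i) with hy
  by_cases hun : y 0 * y 3 + y 1 * y 4 + y 2 * y 5 = 1
  · have hun' : (y 0 : chain H) * y 3 + y 1 * y 4 + y 2 * y 5 = 1 := congrArg Subtype.val hun
    obtain ⟨σ, hσ, a, b, c, e, he⟩ := h2 H _ _ _ _ _ _ hun'
    refine ⟨(ind K σ hσ).comp (ind K ρ hρ), MM_comp K _ (ind_mem K σ hσ) _ (ind_mem K ρ hρ),
      ?_, ?_⟩
    · exact hP1.map (ind K σ hσ)
    · intro _
      obtain ⟨k1, hk1⟩ := pow_inC p K hK a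
      obtain ⟨k2, hk2⟩ := pow_inC p K hK b
      obtain ⟨k3, hk3⟩ := pow_inC p K hK c
      obtain ⟨k4, hk4⟩ := pow_inC p K hK e
      let k := k1 + k2 + k3 + k4
      refine ⟨k, ⟨_, hk1 k (by omega)⟩, ⟨_, hk2 k (by omega)⟩, ⟨_, hk3 k (by omega)⟩,
        ⟨_, hk4 k (by omega)⟩, ?_⟩
      apply Subtype.ext
      have hchar : CharP (chain H) p := by
        have : Function.Injective ((Pi.evalRingHom (fun _ : ℕ => H[X]) 0).comp
            (chain H).subtype).toFun ∨ True := Or.inr trivial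
        refine (CharP.charP_iff_prime_eq_zero hp.out).2 ?_
        apply Subtype.ext
        change ((p : chain H) : ℕ → H[X]) = 0
        have : ((p : chain H) : ℕ → H[X]) = (p : ℕ → H[X]) := rfl
        rw [this]
        funext i
        change (p : H[X]) = 0
        exact CharP.cast_eq_zero H[X] p
      have h3 : (c * (a * σ (y 0)) + e * (a * σ (y 1) + b * σ (y 2))) ^ p ^ k = 1 := by
        rw [he, one_pow]
      rw [add_pow_char_pow, mul_pow, mul_pow, mul_pow, add_pow_char_pow, mul_pow, mul_pow] at h3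
      exact h3
  · refine ⟨ind K ρ hρ, ind_mem K ρ hρ, hP1, fun hcon => absurd hcon hun⟩

/-- The properties of the colimit. -/
theorem colim (hC : P_COL) (h1 : S_TASK1) (h2 : S_TASK2) (hCnt : P_CNT) (hPRF : P_PRF)
    (hKAP : P_KAP) (H : Type) [Field H] [IsAlgClosed H] [Countable H] (p : ℕ)
    [hp : Fact p.Prime] [CharP H p] (K : Subfield H) (hK : ∀ x : H, ∃ k : ℕ, x ^ p ^ k ∈ K) :
    ∃ (R : Type) (_ : CommRing R) (_ : CharP R p) (φ : ℕ → (TT K →+* R))
      (ψ : ℕ → ℕ → (TT K →+* TT K)),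
      (∀ k l, k ≤ l → ψ k l ∈ MM K ∧ ∀ x, φ l (ψ k l x) = φ k x) ∧
      (∀ r : R, ∃ k x, φ k x = r) ∧
      (∀ k x, φ k x = 0 → ∃ l, k ≤ l ∧ ψ k l x = 0) ∧
      Countable R ∧ IsReduced R ∧ Her R ∧ IsEDR (PerfectClosure R p) := by
  have hcc : Countable (chain H) := hCnt H
  have hct : Countable (TT K) := Subtype.countable
  obtain ⟨R, iR, φ, ψ, hA, hB, hD, hE⟩ := hC (TT K) (MM K) (MM_id K) (MM_comp K) (Prr p)
    (solve h1 h2 H p K hK)
  have hred : IsReduced (TT K) := by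
    have : IsReduced (ℕ → H[X]) := inferInstance
    exact isReduced_of_injective ((chain H).subtype.comp (TT K).subtype)
      (Subtype.val_injective.comp Subtype.val_injective)
  -- common stage
  have common : ∀ (m : ℕ) (r : Fin m → R), ∃ (k : ℕ) (x : Fin m → TT K), ∀ i, φ k (x i) = r i := by
    intro m r
    choose k x hx using fun i => hB (r i)
    let N := Finset.univ.sup k
    refine ⟨N, fun i => ψ (k i) N (x i), fun i => ?_⟩
    rw [(hA (k i) N (Finset.le_sup (Finset.mem_univ i))).2, hx]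
  have hT1 : ∀ k l, k ≤ l → ψ k l 1 = 1 := fun k l _ => map_one _
  have hpH : (p : H) = 0 := CharP.cast_eq_zero H p
  have hpT : (p : TT K) = 0 := by
    apply Subtype.ext
    apply Subtype.ext
    change (((p : TT K) : chain H) : ℕ → H[X]) = 0
    have : (((p : TT K) : chain H) : ℕ → H[X]) = (p : ℕ → H[X]) := rfl
    rw [this]
    funext i
    change (p : H[X]) = 0
    exact CharP.cast_eq_zero H[X] p
  have hntT : (1 : TT K) ≠ 0 := by
    intro h
    have h' : (1 : ℕ → H[X]) = 0 := congrArg (fun z : TT K => ((z : chain H) : ℕ → H[X])) h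
    have h'' := congrFun h' 0
    exact one_ne_zero h''
  have hntR : (1 : R) ≠ 0 := by
    intro h
    have h' : φ 0 1 = 0 := by rw [map_one, h]
    obtain ⟨l, -, hl⟩ := hD 0 1 h'
    rw [map_one] at hl
    exact hntT hl
  have hNt : Nontrivial R := ⟨1, 0, hntR⟩
  have hchR : CharP R p := by
    refine (CharP.charP_iff_prime_eq_zero hp.out).2 ?_
    rw [← map_natCast (φ 0), hpT, map_zero]
  have hHer : Her R := by
    intro a b
    obtain ⟨k, x, hx⟩ := common 6 ![a, b, 0, 0, 0, 0]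
    obtain ⟨l, hkl, hP, -⟩ := hE k x
    have h3 := hP.map (φ l)
    rw [(hA k l hkl).2, (hA k l hkl).2, hx, hx] at h3
    exact h3
  have hTri : TriPow p R := by
    intro a b c a' b' c' h
    obtain ⟨k, x, hx⟩ := common 6 ![a, b, c, a', b', c']
    have h0 : φ k (x 0) = a := hx 0
    have h1 : φ k (x 1) = b := hx 1
    have h2 : φ k (x 2) = c := hx 2
    have h3 : φ k (x 3) = a' := hx 3
    have h4 : φ k (x 4) = b' := hx 4
    have h5 : φ k (x 5) = c' := hx 5
    have h6 : φ k (x 0 * x 3 + x 1 * x 4 + x 2 * x 5 - 1) = 0 := by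
      rw [map_sub, map_add, map_add, map_mul, map_mul, map_mul, map_one, h0, h1, h2, h3, h4, h5,
        h, sub_self]
    obtain ⟨l, hkl, hl⟩ := hD _ _ h6
    rw [map_sub, map_add, map_add, map_mul, map_mul, map_mul, map_one, sub_eq_zero] at hl
    obtain ⟨m, hlm, -, hP⟩ := hE l (fun i => ψ k l (x i))
    obtain ⟨q, X, Y, Z, W, hq⟩ := hP (by
      have := congrArg (ψ l m) hl
      rw [map_add, map_add, map_mul, map_mul, map_mul, map_one] at this
      exact this)
    refine ⟨q, φ m X, φ m Y, φ m Z, φ m W, ?_⟩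
    have := congrArg (φ m) hq
    simp only [map_add, map_mul, map_pow, map_one, (hA l m hlm).2, (hA k l hkl).2] at this
    rw [h0, h1, h2] at this
    exact this
  have hredR : IsReduced R := by
    constructor
    rintro r ⟨n, hn⟩
    obtain ⟨k, x, rfl⟩ := hB r
    rw [← map_pow] at hn
    obtain ⟨l, hkl, hl⟩ := hD _ _ hn
    rw [map_pow] at hl
    have h0 : ψ k l x = 0 := hred.eq_zero _ ⟨n, hl⟩
    rw [← (hA k l hkl).2, h0, map_zero]
  have hcR : Countable R := by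
    have hs : Function.Surjective (fun z : ℕ × TT K => φ z.1 z.2) := by
      intro r
      obtain ⟨k, x, h⟩ := hB r
      exact ⟨(k, x), h⟩
    exact hs.countable
  obtain ⟨hp1, hp2⟩ := hPRF p R hHer hTri
  exact ⟨R, iR, hchR, φ, ψ, hA, hB, hD, hcR, hredR, hHer, hKAP _ hp1 hp2⟩

end Pool.Agent.Run7.h925.HP
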