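import Pool.Agent.Run7.h54.HP.Defs

set_option autoImplicit false

/-!
# MP_d1604f_al, local algebra: solutions on a line and connections in a fibre
-/

namespace Pool.Agent.Run7.h925.HP

open Pool.Agent.Run7.h54.HP Polynomial

/-- Solutions of task 1 at the point `(a, b)`: coordinates `d, u, v, s, r`. -/
def Y1 {K : Type} [CommRing K] (a b : K) (x : Fin 5 → K) : Prop :=
  a = x 0 * x 1 ∧ b = x 0 * x 2 ∧ x 3 * x 1 + x 4 * x 2 = 1

/-- Solutions of task 2 at the point `(a, b, c)`: coordinates `x, y, z, w`. -/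
def Y2 {K : Type} [CommRing K] (a b c : K) (x : Fin 4 → K) : Prop :=
  x 2 * (x 0 * a) + x 3 * (x 0 * b + x 1 * c) = 1

/-- The straight segment from `x` to `y` consists of points with property `P`. -/
def Str {H : Type} [Field H] {n : ℕ} (P : (Fin n → H) → Prop) (x y : Fin n → H) : Prop :=
  ∀ t : H, P (fun i => x i + t * (y i - x i))

/-- Joined by finitely many straight segments. -/
def Conn {H : Type} [Field H] {n : ℕ} (P : (Fin n → H) → Prop) (x y : Fin n → H) : Prop :=
  Relation.ReflTransGen (Str P) x y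

/-- The scaling of task 1. -/
def sc1 {H : Type} [Field H] (h : H) : Fin 5 → H := ![h, h⁻¹, h⁻¹, h, h]

/-- The scaling of task 2. -/
def sc2 {H : Type} [Field H] (h : H) : Fin 4 → H := ![h, h, h⁻¹, h⁻¹]

section
variable {H : Type} [Field H]

theorem conn1 {a b : H} (hab : ¬ (a = 0 ∧ b = 0)) (x y : Fin 5 → H) (hx : Y1 a b x)
    (hy : Y1 a b y) : ∃ h : H, h ≠ 0 ∧ Conn (Y1 a b) x (sc1 h * y) := by
  obtain ⟨hx1, hx2, hx3⟩ := hx
  obtain ⟨hy1, hy2, hy3⟩ := hy
  have hx0 : x 0 ≠ 0 := by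
    intro h0
    exact hab ⟨by rw [hx1, h0, zero_mul], by rw [hx2, h0, zero_mul]⟩
  have hy0 : y 0 ≠ 0 := by
    intro h0
    exact hab ⟨by rw [hy1, h0, zero_mul], by rw [hy2, h0, zero_mul]⟩
  refine ⟨x 0 / y 0, div_ne_zero hx0 hy0, Relation.ReflTransGen.single ?_⟩
  have e0 : (sc1 (x 0 / y 0) * y) 0 = x 0 := by
    simp [sc1]; field_simp
  have e1 : (sc1 (x 0 / y 0) * y) 1 = x 1 := by
    simp [sc1]; field_simp
    rw [← hy1, hx1]
  have e2 : (sc1 (x 0 / y 0) * y) 2 = x 2 := by
    simp [sc1]; field_simp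
    rw [← hy2, hx2]
  have e3 : (sc1 (x 0 / y 0) * y) 3 * x 1 + (sc1 (x 0 / y 0) * y) 4 * x 2 = 1 := by
    rw [← e1, ← e2]
    simp [sc1]; field_simp
    linear_combination hy3
  intro t
  refine ⟨?_, ?_, ?_⟩
  · simp only []
    rw [e0, e1]; rw [hx1]; ring
  · simp only []
    rw [e0, e2]; rw [hx2]; ring
  · simp only []
    rw [e1, e2]
    linear_combination (1 - t) * hx3 + t * e3

theorem conn1_zero (x y : Fin 5 → H) (hx : Y1 0 0 x) (hy : Y1 0 0 y) :
    Conn (Y1 (0 : H) 0) x y := by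
  have key0 : ∀ x : Fin 5 → H, Y1 0 0 x → x 0 = 0 := by
    intro x hx
    obtain ⟨h1, h2, h3⟩ := hx
    linear_combination (-(x 0)) * h3 - (x 3) * h1 - (x 4) * h2
  -- moves
  have symm : ∀ x y : Fin 5 → H, Str (Y1 (0 : H) 0) x y → Str (Y1 (0 : H) 0) y x := by
    intro x y h t
    have := h (1 - t)
    convert this using 2
    ring
  have mvA : ∀ (u v s r m : H), s * u + r * v = 1 →
      Str (Y1 (0 : H) 0) ![0, u, v, s, r] ![0, u, v, s - m * v, r + m * u] := by
    intro u v s r m h t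
    refine ⟨by simp, by simp, ?_⟩
    simp
    linear_combination h
  have mvB : ∀ (u v s r m : H), s * u + r * v = 1 →
      Str (Y1 (0 : H) 0) ![0, u, v, s, r] ![0, u - m * r, v + m * s, s, r] := by
    intro u v s r m h t
    refine ⟨by simp, by simp, ?_⟩
    simp
    linear_combination h
  have step : ∀ (u v s r : H), v ≠ 0 → s * u + r * v = 1 →
      Conn (Y1 (0 : H) 0) ![0, u, v, s, r] ![0, 1, 0, 1, 0] := by
    intro u v s r hv h
    -- move A with s - m v = 1
    have h1 := mvA u v s r ((s - 1) / v) h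
    have e1 : s - (s - 1) / v * v = 1 := by field_simp; ring
    rw [e1] at h1
    set r1 := r + (s - 1) / v * u with hr1
    have d1 : 1 * u + r1 * v = 1 := by
      rw [hr1]; field_simp; linear_combination h
    have h2 := mvB u v 1 r1 (-v) d1
    have e2 : v + -v * 1 = 0 := by ring
    have e3 : u - -v * r1 = 1 := by linear_combination d1
    rw [e2, e3] at h2
    have h3 := mvA 1 0 1 r1 (-r1) (by ring)
    have e4 : (1 : H) - -r1 * 0 = 1 := by ring
    have e5 : r1 + -r1 * 1 = 0 := by ring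
    rw [e4, e5] at h3
    exact ((Relation.ReflTransGen.single h1).tail h2).tail h3
  have all : ∀ x : Fin 5 → H, Y1 0 0 x → Conn (Y1 (0 : H) 0) x ![0, 1, 0, 1, 0] := by
    intro x hx
    have ex : x = ![0, x 1, x 2, x 3, x 4] := by
      funext i
      fin_cases i
      · exact key0 x hx
      all_goals rfl
    have h3 := hx.2.2
    rw [ex]
    by_cases hv : x 2 = 0
    · have hs : x 3 ≠ 0 := by
        intro h0; rw [hv, h0] at h3; simp at h3
      have h1 := mvB (x 1) (x 2) (x 3) (x 4) 1 h3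
      refine Relation.ReflTransGen.trans (Relation.ReflTransGen.single h1) (step _ _ _ _ ?_ ?_)
      · rw [hv]; simpa using hs
      · linear_combination h3
    · exact step _ _ _ _ hv h3
  have all' : ∀ x : Fin 5 → H, Y1 0 0 x → Conn (Y1 (0 : H) 0) ![0, 1, 0, 1, 0] x := by
    intro x hx
    have := all x hx
    have hs : Std.Symm (Str (Y1 (0 : H) 0)) := ⟨fun a b => symm a b⟩
    exact (Relation.ReflTransGen.stdSymm).symm _ _ this
  exact (all x hx).trans (all' y hy)

theorem conn2 {a b c : H} (x y : Fin 4 → H) (hx : Y2 a b c x) (hy : Y2 a b c y) :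
    ∃ h : H, h ≠ 0 ∧ Conn (Y2 a b c) x (sc2 h * y) := by
  unfold Y2 at hx hy
  -- the functional
  have key : ∃ z w : H, z * (x 0 * a) + w * (x 0 * b + x 1 * c) = 1 ∧
      z * (y 0 * a) + w * (y 0 * b + y 1 * c) ≠ 0 := by
    by_cases h1 : x 2 * (y 0 * a) + x 3 * (y 0 * b + y 1 * c) = 0
    · by_cases h2 : y 2 * (x 0 * a) + y 3 * (x 0 * b + x 1 * c) = 0
      · refine ⟨x 2 + y 2, x 3 + y 3, ?_, ?_⟩
        · linear_combination hx + h2
        · have : (x 2 + y 2) * (y 0 * a) + (x 3 + y 3) * (y 0 * b + y 1 * c) = 1 := by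
            linear_combination hy + h1
          rw [this]; exact one_ne_zero
      · refine ⟨y 2 / (y 2 * (x 0 * a) + y 3 * (x 0 * b + x 1 * c)),
          y 3 / (y 2 * (x 0 * a) + y 3 * (x 0 * b + x 1 * c)), ?_, ?_⟩
        · rw [div_mul_eq_mul_div, div_mul_eq_mul_div, ← add_div, div_self h2]
        · rw [div_mul_eq_mul_div, div_mul_eq_mul_div, ← add_div, hy]
          exact one_div_ne_zero h2
    · exact ⟨x 2, x 3, hx, h1⟩
  obtain ⟨z, w, h1, h2⟩ := key
  set q := z * (y 0 * a) + w * (y 0 * b + y 1 * c) with hq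
  refine ⟨q⁻¹, inv_ne_zero h2, ?_⟩
  have s1 : Str (Y2 a b c) x ![x 0, x 1, z, w] := by
    intro t
    unfold Y2
    simp
    linear_combination (1 - t) * hx + t * h1
  have s2 : Str (Y2 a b c) ![x 0, x 1, z, w] ![q⁻¹ * y 0, q⁻¹ * y 1, z, w] := by
    intro t
    unfold Y2
    have h3 : q⁻¹ * q = 1 := inv_mul_cancel₀ h2
    rw [hq] at h3
    rw [← hq] at h3
    simp
    linear_combination (1 - t) * h1 + t * h3 - t * q⁻¹ * hq
  have s3 : Str (Y2 a b c) ![q⁻¹ * y 0, q⁻¹ * y 1, z, w] (sc2 q⁻¹ * y) := by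
    intro t
    unfold Y2
    have h3 : q⁻¹ * q = 1 := inv_mul_cancel₀ h2
    have h4 : q * q⁻¹ = 1 := mul_inv_cancel₀ h2
    simp [sc2]
    linear_combination t * hy + (1 - t) * h3 - (1 - t) * q⁻¹ * hq +
      t * (y 2 * (y 0 * a) + y 3 * (y 0 * b + y 1 * c)) * h3
  exact ((Relation.ReflTransGen.single s1).tail s2).tail s3

/-- Solutions of task 1 on a line. -/
theorem line1 (f g : H[X]) : ∃ x : Fin 5 → H[X], Y1 f g x := by
  classical
  by_cases h : f = 0 ∧ g = 0
  · refine ⟨![0, 1, 0, 1, 0], ?_, ?_, ?_⟩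
    · simp [h.1]
    · simp [h.2]
    · simp
  · have hg : EuclideanDomain.gcd f g ≠ 0 := by
      intro h0
      exact h (EuclideanDomain.gcd_eq_zero_iff.1 h0)
    obtain ⟨u, hu⟩ := EuclideanDomain.gcd_dvd_left f g
    obtain ⟨v, hv⟩ := EuclideanDomain.gcd_dvd_right f g
    have hb := EuclideanDomain.gcd_eq_gcd_ab f g
    refine ⟨![EuclideanDomain.gcd f g, u, v, EuclideanDomain.gcdA f g,
      EuclideanDomain.gcdB f g], ?_, ?_, ?_⟩
    · simpa using hu
    · simpa using hv
    · simp
      apply mul_left_cancel₀ hg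
      linear_combination (-(EuclideanDomain.gcdA f g)) * hu -
        (EuclideanDomain.gcdB f g) * hv - hb

/-- Solutions of task 2 on a line. -/
theorem line2 [IsAlgClosed H] (a b c a' b' c' : H[X]) (h : a * a' + b * b' + c * c' = 1) :
    ∃ x : Fin 4 → H[X], Y2 a b c x := by
  classical
  by_cases ha : a = 0
  · refine ⟨![b', c', 0, 1], ?_⟩
    unfold Y2
    simp
    rw [ha] at h
    linear_combination h
  · let Y : H[X] := ∏ r ∈ a.roots.toFinset.filter (fun r => b.eval r ≠ 0), (X - C r)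
    have hY : ∀ r : H, Y.eval r = 0 ↔ (a.eval r = 0 ∧ b.eval r ≠ 0) := by
      intro r
      simp only [Y]
      rw [eval_prod, Finset.prod_eq_zero_iff]
      constructor
      · rintro ⟨s, hs, hs0⟩
        rw [eval_sub, eval_X, eval_C, sub_eq_zero] at hs0
        subst hs0
        rw [Finset.mem_filter, Multiset.mem_toFinset, mem_roots ha] at hs
        exact hs
      · intro hr
        refine ⟨r, ?_, by simp⟩
        rw [Finset.mem_filter, Multiset.mem_toFinset, mem_roots ha]
        exact hr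
    have hco : IsCoprime a (b + Y * c) := by
      rw [Polynomial.isCoprime_iff_aeval_ne_zero_of_isAlgClosed H H]
      intro r
      by_contra hcon
      push Not at hcon
      obtain ⟨h1, h2⟩ := hcon
      rw [Polynomial.coe_aeval_eq_eval] at h1 h2
      rw [eval_add, eval_mul] at h2
      by_cases hb : b.eval r = 0
      · have hYr : Y.eval r ≠ 0 := by
          rw [Ne, hY]; exact fun hh => hh.2 hb
        rw [hb, zero_add] at h2
        have hc : c.eval r = 0 := (mul_eq_zero.1 h2).resolve_left hYr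
        have := congrArg (eval r) h
        simp [h1, hb, hc] at this
      · have hYr : Y.eval r = 0 := (hY r).2 ⟨h1, hb⟩
        rw [hYr, zero_mul, add_zero] at h2
        exact hb h2
    obtain ⟨z, w, hzw⟩ := hco
    refine ⟨![1, Y, z, w], ?_⟩
    unfold Y2
    simp
    linear_combination hzw

end

end Pool.Agent.Run7.h925.HP
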