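import Pool.Agent.Run7.h925.HP.TaskDefs
import Pool.Agent.Run7.h925.HP.LOC

set_option autoImplicit false

/-!
# MP_d1604f_al, the path framework
-/

namespace Pool.Agent.Run7.h925.HP

open Pool.Agent.Run7.h54.HP Polynomial

section
variable {H : Type} [Field H] {n : ℕ}

/-- Evaluation of all chains at the point `t` of line `i`. -/
def ev (i : ℕ) (t : H) : chain H → H := fun f => (f.1 i).eval t

theorem ev_junction (i : ℕ) : ev (H := H) i 1 = ev (i + 1) 0 := by
  funext f
  exact f.2.1 i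

/-- Restriction to a line, as a ring homomorphism. -/
noncomputable def lineHom (i : ℕ) : chain H →+* H[X] := (Pi.evalRingHom (fun _ => H[X]) i).comp (chain H).subtype

theorem lineHom_apply (i : ℕ) (f : chain H) : lineHom i f = f.1 i := rfl

/-- The segment from `p` to `q` on line `i`. -/
noncomputable def segHom (i : ℕ) (p q : H) : chain H →+* H[X] :=
  (Polynomial.compRingHom (C p + (C q - C p) * X)).comp (lineHom i)

theorem segHom_eval (i : ℕ) (p q t : H) (f : chain H) :
    (segHom i p q f).eval t = ev i (p + (q - p) * t) f := by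
  simp [segHom, lineHom_apply, ev]

/-- A path with solutions from the position `(i, p)`, starting at the vector `x`. -/
structure Tail (Y : (chain H → H) → (Fin n → H) → Prop) (Z : (Fin n → H) → Prop)
    (φ : chain H → H) (x : Fin n → H) where
  θ : ℕ → (chain H →+* H[X])
  X : ℕ → Fin n → H[X]
  θ0 : ∀ f, (θ 0 f).eval 0 = φ f
  θ1 : ∀ j f, (θ j f).eval 1 = (θ (j + 1) f).eval 0
  θ2 : ∀ f c, E1 f c → ∃ M, ∀ j, M ≤ j → θ j f = C c
  X0 : ∀ k, (X 0 k).eval 0 = x k
  X1 : ∀ j k, (X j k).eval 1 = (X (j + 1) k).eval 0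
  z : Fin n → H
  hz : Z z
  X2 : ∃ M, ∀ j, M ≤ j → ∀ k, X j k = C (z k)
  hY : ∀ j t, Y (fun f => (θ j f).eval t) (fun k => (X j k).eval t)

variable {Y : (chain H → H) → (Fin n → H) → Prop} {Z : (Fin n → H) → Prop}

/-- PREPEND. -/
theorem prepend (i : ℕ) (p q : H) (W : Fin n → H[X])
    (hW : ∀ t, Y (ev i (p + (q - p) * t)) (fun k => (W k).eval t))
    (h : Nonempty (Tail Y Z (ev i q) (fun k => (W k).eval 1))) :
    Nonempty (Tail Y Z (ev i p) (fun k => (W k).eval 0)) := by
  obtain ⟨T⟩ := h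
  refine ⟨{
    θ := fun j => Nat.casesOn j (segHom i p q) (fun j => T.θ j)
    X := fun j => Nat.casesOn j W (fun j => T.X j)
    θ0 := ?_
    θ1 := ?_
    θ2 := ?_
    X0 := ?_
    X1 := ?_
    z := T.z
    hz := T.hz
    X2 := ?_
    hY := ?_ }⟩
  · intro f
    change (segHom i p q f).eval 0 = _
    rw [segHom_eval]; simp
  · intro j f
    cases j with
    | zero =>
      change (segHom i p q f).eval 1 = (T.θ 0 f).eval 0
      rw [segHom_eval, T.θ0]; simp
    | succ j => exact T.θ1 j f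
  · intro f c hf
    obtain ⟨M, hM⟩ := T.θ2 f c hf
    refine ⟨M + 1, fun j hj => ?_⟩
    cases j with
    | zero => omega
    | succ j => exact hM j (by omega)
  · intro k; rfl
  · intro j k
    cases j with
    | zero =>
      change (W k).eval 1 = (T.X 0 k).eval 0
      rw [T.X0]
    | succ j => exact T.X1 j k
  · obtain ⟨M, hM⟩ := T.X2
    refine ⟨M + 1, fun j hj => ?_⟩
    cases j with
    | zero => omega
    | succ j => exact hM j (by omega)
  · intro j t
    cases j with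
    | zero =>
      have := hW t
      have e : (fun f => (segHom i p q f).eval t) = ev i (p + (q - p) * t) := by
        funext f
        exact segHom_eval i p q t f
      change Y (fun f => (segHom i p q f).eval t) (fun k => (W k).eval t)
      rw [e]
      exact this
    | succ j => exact T.hY j t

/-- BASE. -/
theorem base (N : ℕ) (z : Fin n → H) (hz : Z z) (hY : ∀ i t, N ≤ i → Y (ev i t) z) :
    Nonempty (Tail Y Z (ev N 0) z) := by
  refine ⟨{
    θ := fun j => lineHom (N + j)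
    X := fun _ k => C (z k)
    θ0 := ?_
    θ1 := ?_
    θ2 := ?_
    X0 := ?_
    X1 := ?_
    z := z
    hz := hz
    X2 := ⟨0, fun _ _ _ => rfl⟩
    hY := ?_ }⟩
  · intro f; rfl
  · intro j f; exact f.2.1 (N + j)
  · rintro f c ⟨M, hM⟩
    exact ⟨M, fun j hj => hM _ (by omega)⟩
  · intro k; simp
  · intro j k; simp
  · intro j t
    have := hY (N + j) t (by omega)
    have e : (fun k => (C (z k)).eval t) = z := by
      funext k
      exact eval_C
    change Y (ev (N + j) t) (fun k => (C (z k)).eval t)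
    rw [e]
    exact this

/-- Moving inside a fibre. -/
theorem fibre_step (i : ℕ) (p : H) (x y : Fin n → H) (h : Str (Y (ev i p)) x y)
    (hT : Nonempty (Tail Y Z (ev i p) y)) : Nonempty (Tail Y Z (ev i p) x) := by
  have := prepend (Y := Y) (Z := Z) i p p (fun k => C (x k) + X * C (y k - x k)) (by
    intro t
    have h1 := h t
    simp only [sub_self, zero_mul, add_zero]
    convert h1 using 1
    funext k
    simp) (by
    convert hT using 2
    funext k
    simp)
  convert this using 2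
  funext k
  simp

theorem fibre_conn (i : ℕ) (p : H) (x y : Fin n → H) (h : Conn (Y (ev i p)) x y)
    (hT : Nonempty (Tail Y Z (ev i p) y)) : Nonempty (Tail Y Z (ev i p) x) := by
  induction h using Relation.ReflTransGen.head_induction_on with
  | refl => exact hT
  | head h _ ih => exact fibre_step i p _ _ h ih

/-- Scaling of connections. -/
theorem conn_scale {P : (Fin n → H) → Prop} (κ : Fin n → H) (hκ : ∀ x, P x → P (κ * x))
    {x y : Fin n → H} (h : Conn P x y) : Conn P (κ * x) (κ * y) := by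
  unfold Conn at *
  refine Relation.ReflTransGen.lift (fun x => κ * x) ?_ _ _ h
  intro a b hab t
  have := hκ _ (hab t)
  convert this using 1
  funext k
  simp only [Pi.mul_apply]
  ring

theorem conn_symm {P : (Fin n → H) → Prop} {x y : Fin n → H} (h : Conn P x y) : Conn P y x := by
  have hs : Std.Symm (Str P) := ⟨fun a b hab t => by
    have := hab (1 - t)
    convert this using 1
    funext k
    ring⟩
  exact (Relation.ReflTransGen.stdSymm).symm _ _ h

/-- One line: if up to scaling all solutions at `q` have a tail, then so do all at `p`. -/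
theorem PG (Sc : Set (Fin n → H)) (hmul : ∀ κ ∈ Sc, ∀ κ' ∈ Sc, κ * κ' ∈ Sc)
    (hY : ∀ κ ∈ Sc, ∀ φ x, Y φ x → Y φ (κ * x)) (i : ℕ) (p q : H)
    (hL : ∃ W : Fin n → H[X], ∀ t, Y (ev i t) (fun k => (W k).eval t))
    (hJ : ∀ x y, Y (ev i p) x → Y (ev i p) y → ∃ κ ∈ Sc, Conn (Y (ev i p)) x (κ * y))
    (hq : ∀ x, Y (ev i q) x → ∃ κ ∈ Sc, Nonempty (Tail Y Z (ev i q) (κ * x))) :
    ∀ x, Y (ev i p) x → ∃ κ ∈ Sc, Nonempty (Tail Y Z (ev i p) (κ * x)) := by
  intro x hx
  obtain ⟨W, hW⟩ := hL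
  obtain ⟨κ, hκ, hc⟩ := hJ x _ hx (hW p)
  obtain ⟨κ', hκ', hT⟩ := hq _ (hY κ hκ _ _ (hW q))
  refine ⟨κ', hκ', ?_⟩
  apply fibre_conn i p (κ' * x) _ (conn_scale κ' (hY κ' hκ' _) hc)
  have := prepend (Y := Y) (Z := Z) i p q
    (fun k => C (κ' k * κ k) * (W k).comp (C p + (C q - C p) * X)) (by
      intro t
      have h1 := hY _ (hmul _ hκ' _ hκ) _ _ (hW (p + (q - p) * t))
      convert h1 using 1
      funext k
      simp) (by
      convert hT using 2
      funext k
      simp [mul_assoc])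
  convert this using 2
  funext k
  simp [mul_assoc]

/-- One line: if all solutions at `q` have a tail, then so do all at `p`. -/
theorem PA (Sc : Set (Fin n → H)) 
    (hY : ∀ κ ∈ Sc, ∀ φ x, Y φ x → Y φ (κ * x)) (i : ℕ) (p q : H)
    (hL : ∃ W : Fin n → H[X], ∀ t, Y (ev i t) (fun k => (W k).eval t))
    (hJ : ∀ x y, Y (ev i p) x → Y (ev i p) y → ∃ κ ∈ Sc, Conn (Y (ev i p)) x (κ * y))
    (hq : ∀ x, Y (ev i q) x → Nonempty (Tail Y Z (ev i q) x)) :
    ∀ x, Y (ev i p) x → Nonempty (Tail Y Z (ev i p) x) := by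
  intro x hx
  obtain ⟨W, hW⟩ := hL
  obtain ⟨κ, hκ, hc⟩ := hJ x _ hx (hW p)
  have hT := hq _ (hY κ hκ _ _ (hW q))
  apply fibre_conn i p x _ hc
  have := prepend (Y := Y) (Z := Z) i p q
    (fun k => C (κ k) * (W k).comp (C p + (C q - C p) * X)) (by
      intro t
      have h1 := hY _ hκ _ _ (hW (p + (q - p) * t))
      convert h1 using 1
      funext k
      simp) (by
      convert hT using 2
      funext k
      simp)
  convert this using 2
  funext k
  simp

/-- Going down along the lines `N, N - 1, ..., m`. -/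
theorem PA_down (Sc : Set (Fin n → H)) 
    (hY : ∀ κ ∈ Sc, ∀ φ x, Y φ x → Y φ (κ * x))
    (hL : ∀ i, ∃ W : Fin n → H[X], ∀ t, Y (ev i t) (fun k => (W k).eval t))
    (hJ : ∀ i p x y, Y (ev i p) x → Y (ev i p) y → ∃ κ ∈ Sc, Conn (Y (ev i p)) x (κ * y))
    (N : ℕ) (hq : ∀ x, Y (ev N 0) x → Nonempty (Tail Y Z (ev N 0) x)) :
    ∀ m, m ≤ N → ∀ x, Y (ev m 0) x → Nonempty (Tail Y Z (ev m 0) x) := by
  intro m hm
  induction hm using Nat.decreasingInduction with
  | self => exact hq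
  | of_succ m _ ih =>
    apply PA Sc hY m 0 1 (hL m) (hJ m 0)
    rw [ev_junction]
    exact ih

theorem PG_down (Sc : Set (Fin n → H)) (hmul : ∀ κ ∈ Sc, ∀ κ' ∈ Sc, κ * κ' ∈ Sc)
    (hY : ∀ κ ∈ Sc, ∀ φ x, Y φ x → Y φ (κ * x))
    (hL : ∀ i, ∃ W : Fin n → H[X], ∀ t, Y (ev i t) (fun k => (W k).eval t))
    (hJ : ∀ i p x y, Y (ev i p) x → Y (ev i p) y → ∃ κ ∈ Sc, Conn (Y (ev i p)) x (κ * y))
    (N : ℕ) (hq : ∀ x, Y (ev N 0) x → ∃ κ ∈ Sc, Nonempty (Tail Y Z (ev N 0) (κ * x))) :
    ∀ m, m ≤ N → ∀ x, Y (ev m 0) x → ∃ κ ∈ Sc, Nonempty (Tail Y Z (ev m 0) (κ * x)) := by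
  intro m hm
  induction hm using Nat.decreasingInduction with
  | self => exact hq
  | of_succ m _ ih =>
    apply PG Sc hmul hY m 0 1 (hL m) (hJ m 0)
    rw [ev_junction]
    exact ih

/-- EXTRACT. -/
theorem extract {x : Fin n → H} (h : Nonempty (Tail Y Z (ev 0 0) x)) :
    ∃ ρ : chain H →+* chain H, Refines ρ ∧ ∃ (w : Fin n → chain H) (z : Fin n → H),
      (∀ k, ((w k).1 0).eval 0 = x k) ∧ Z z ∧ (∀ k, E1 (w k) (z k)) ∧
      ∀ j t, Y (fun f => ((ρ f).1 j).eval t) (fun k => ((w k).1 j).eval t) := by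
  obtain ⟨T⟩ := h
  let θ' : chain H →+* (ℕ → H[X]) := RingHom.pi T.θ
  have hmem : ∀ f, θ' f ∈ chain H := by
    intro f
    refine ⟨fun i => T.θ1 i f, ?_⟩
    obtain ⟨N, c, hc⟩ := f.2.2
    obtain ⟨M, hM⟩ := T.θ2 f c ⟨N, hc⟩
    exact ⟨M, c, hM⟩
  refine ⟨θ'.codRestrict (chain H) hmem, ⟨?_, ?_⟩, ?_⟩
  · intro f; exact T.θ0 f
  · intro f c hf; exact T.θ2 f c hf
  · obtain ⟨M, hM⟩ := T.X2
    refine ⟨fun k => ⟨fun j => T.X j k, fun j => T.X1 j k, M, T.z k, fun j hj => hM j hj k⟩,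
      T.z, T.X0, T.hz, fun k => ⟨M, fun j hj => hM j hj k⟩, ?_⟩
    intro j t
    exact T.hY j t

end

end Pool.Agent.Run7.h925.HP
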