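import Pool.Agent.Run7.h54.HP.Defs

set_option autoImplicit false

/-!
# MP_d1604f_al, the statements of the two tasks on chains
-/

namespace Pool.Agent.Run7.h925.HP

open Pool.Agent.Run7.h54.HP Polynomial

/-- The chain `f` ends in the constant `c`. -/
def E1 {H : Type} [Field H] (f : chain H) (c : H) : Prop :=
  ∃ N : ℕ, ∀ i, N ≤ i → f.1 i = C c

/-- Refinements: endomorphisms of the ring of chains which preserve both ends. -/
def Refines {H : Type} [Field H] (ρ : chain H →+* chain H) : Prop :=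
  (∀ f, ((ρ f).1 0).eval 0 = (f.1 0).eval 0) ∧ ∀ f c, E1 f c → E1 (ρ f) c

/-- Both ends of the chain lie in the subfield. -/
def InC {H : Type} [Field H] (K : Subfield H) (f : chain H) : Prop :=
  (f.1 0).eval 0 ∈ K ∧ ∃ c ∈ K, E1 f c

/-- TASK 1. -/
def S_TASK1 : Prop := ∀ (H : Type) [Field H] [IsAlgClosed H] (K : Subfield H) (a b : chain H),
  InC K a → InC K b → ∃ ρ : chain H →+* chain H, Refines ρ ∧ ∃ d u v s r : chain H,
    (InC K d ∧ InC K u ∧ InC K v ∧ InC K s ∧ InC K r) ∧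
    ρ a = d * u ∧ ρ b = d * v ∧ s * u + r * v = 1

/-- TASK 2. -/
def S_TASK2 : Prop := ∀ (H : Type) [Field H] [IsAlgClosed H] (a b c a' b' c' : chain H),
  a * a' + b * b' + c * c' = 1 → ∃ ρ : chain H →+* chain H, Refines ρ ∧ ∃ x y z w : chain H,
    z * (x * ρ a) + w * (x * ρ b + y * ρ c) = 1

end Pool.Agent.Run7.h925.HP
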